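import Mathlib
import Pool.Agent.Lib.MP_a1c723_lc.Defs
import Pool.Agent.Lib.MP_a1c723_lc.Converse

/-!
The configuration asked for in Q1 exists at `κ = ℵ₁` exactly when `cov(M) = ℵ₁ < d`.
The witnesses are the Luzin families.
-/

namespace Pool.Agent.Results.MP_a1c723_lc.LuzinStarRothberger

open Cardinal Set Pool.Agent.StarRoth

/-- There is an almost disjoint family `A` of cardinality `κ = ℵ₁ ≥ cov(M)` with
`cof([κ]^ℵ₀) = κ` and `Ψ(A)` star-Rothberger if and only if `cov(M) = ℵ₁ < d`. -/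
theorem result :
    (∃ A : Set (Set ℕ), IsAD A ∧ #A = ℵ₁ ∧ covM ≤ ℵ₁ ∧ cofCtbl ℵ₁ = ℵ₁ ∧
      StarRothberger (Psi A)) ↔ (covM = ℵ₁ ∧ ℵ₁ < dNum) := by
  constructor
  · rintro ⟨A, hA, hcard, hcov, hcof, hSR⟩
    refine ⟨le_antisymm hcov aleph1_le_covM, ?_⟩
    by_contra hcon
    exact not_starRothberger hA le_rfl hcard hcof.le (not_lt.1 hcon) hSR
  · rintro ⟨hcov, hd⟩
    refine ⟨range (luz W1), ⟨?_, ?_⟩, ?_, hcov.le, cofCtbl_aleph1, ?_⟩
    · rintro _ ⟨i, rfl⟩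
      exact luz_infinite W1_Iio i
    · rintro _ ⟨i, rfl⟩ _ ⟨j, rfl⟩ hij
      exact luz_ad W1_Iio fun h => hij (by rw [h])
    · rw [mk_range_eq _ (luz_injective W1_Iio), mk_W1]
    · exact starRothberger_luz W1_Iio (by rw [mk_W1]; exact hd)

end Pool.Agent.Results.MP_a1c723_lc.LuzinStarRothberger
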