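import Mathlib
import Pool.Agent.Lib.MP_a1c723_lc.BV.Internal
import Pool.Agent.Lib.MP_a1c723_lc.BV.Assembly
import Pool.Agent.Lib.MP_a1c723_lc.BV.Alg
import Pool.Agent.Lib.MP_a1c723_lc.BV.CCC
import Pool.Agent.Lib.MP_a1c723_lc.BV.Dom
import Pool.Agent.Lib.MP_a1c723_lc.BV.Ran
import Pool.Agent.Lib.MP_a1c723_lc.BV.FactsEx
import Pool.Agent.Lib.MP_a1c723_lc.BV.Model
import Pool.Agent.Lib.MP_a1c723_lc.BV.Card
import Pool.Agent.Lib.MP_a1c723_lc.BV.Cof
import Pool.Agent.Lib.MP_a1c723_lc.BV.Cov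
import Pool.Agent.Lib.MP_a1c723_lc.BV.Fam

/-!
Q1, full positive answer: there is a model of `ZFC` in which there are a cardinal `κ` and an
almost disjoint family `A` with `|A| = κ ≥ cov(M)`, `cof([κ]^ω) = κ` and `Ψ(A)` star-Rothberger.

The notions `IsOmegaIn`, `IsCardIn`, … are the usual first-order notions, read inside the model
`(M, ∈)`; they are defined in `Pool.Agent.Lib.MP_a1c723_lc.BV.Internal`.
-/

namespace Pool.Agent.Results.MP_a1c723_lc.StarRothbergerConsistent

open Pool.Agent.StarRoth.BV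

/-- It is consistent with `ZFC` that there are a cardinal `κ` and an almost disjoint family `A`
with `|A| = κ ≥ cov(M)`, `cof([κ]^ω) = κ` and `Ψ(A)` star-Rothberger: there is a model `(M, ∈)` of
`ZFC` with elements `w = ω`, `κ` and `A` such that in `M` all of this holds. -/
theorem result :
    ∃ (M : Type) (_ : Membership M M), ModelZFC M ∧ ∃ w κ A : M, IsOmegaIn w ∧ IsCardIn κ ∧
      IsADIn A w ∧ (∃ f : M, IsBijIn f A κ) ∧ CovLeIn κ w ∧ CofEqIn κ w ∧ StarRothIn A w :=
  consistency factsStmt algStmt cccStmt domStmt ranStmt modelStmt cardStmt cofStmt covStmt famStmt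

end Pool.Agent.Results.MP_a1c723_lc.StarRothbergerConsistent
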